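import Pool.Agent.PVD.StmtsL

/-! Squad PVD, block L, row L_GNU. -/

set_option autoImplicit false
open MeasureTheory

namespace Pool.Agent.PVD.L.H52

theorem u_pos {x : ℝ} (hx : x ∈ Set.uIcc (0:ℝ) 1) : 0 < 1 + 63 * x := by
  rw [Set.uIcc_of_le zero_le_one] at hx
  linarith [hx.1]

theorem ph_eq (x : ℝ) : ph x = (1 + 63 * x) / 64 := by
  unfold ph; ring

theorem ph_pos {x : ℝ} (hx : x ∈ Set.uIcc (0:ℝ) 1) : 0 < ph x := by
  rw [ph_eq]; have := u_pos hx; positivity

theorem ph_cont : Continuous ph := by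
  unfold ph; fun_prop

theorem lin_deriv (x : ℝ) : HasDerivAt (fun x : ℝ => 1 + 63 * x) 63 x := by
  have h := ((hasDerivAt_id x).const_mul (63:ℝ)).const_add (1:ℝ)
  simpa using h

theorem log_deriv {x : ℝ} (hx : 0 < 1 + 63 * x) :
    HasDerivAt (fun x : ℝ => Real.log (1 + 63 * x)) (63 / (1 + 63 * x)) x :=
  (lin_deriv x).log hx.ne'

theorem log64 : Real.log (1 + 63 * 1) = 6 * Real.log 2 := by
  rw [show (1:ℝ) + 63 * 1 = 2 ^ 6 by norm_num, Real.log_pow]
  norm_num

theorem alg1 (x u : ℝ) (h : u = 1 + 63 * x) (hu : u ≠ 0) :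
    x / (u / 64) = 64 / 63 * (1 - 63 / u / 63) := by
  have hx : x = (u - 1) / 63 := by rw [h]; ring
  rw [hx]
  field_simp

theorem alg2 (x u : ℝ) (h : u = 1 + 63 * x) (hu : u ≠ 0) :
    (1 - x) / (u / 64) = 64 / 63 * (63 / u) - 64 / 63 * (1 - 63 / u / 63) := by
  have hx : x = (u - 1) / 63 := by rw [h]; ring
  rw [hx]
  field_simp

theorem alg3 (x u : ℝ) (h : u = 1 + 63 * x) (hu : u ≠ 0) :
    x * (1 - 2 * x) / (u / 64) ^ 2 = 4096 / 250047 * (-2 * 63 + 67 * (63 / u) +
      65 * (-63 / u ^ 2)) := by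
  have hx : x = (u - 1) / 63 := by rw [h]; ring
  rw [hx]
  field_simp
  ring

theorem A0_eq : A0 = 64 / 63 * (1 - 6 * Real.log 2 / 63) := by
  unfold A0
  have h := intervalIntegral.integral_eq_sub_of_hasDerivAt
    (f := fun x : ℝ => 64 / 63 * (x - Real.log (1 + 63 * x) / 63))
    (f' := fun x => x / ph x) (a := 0) (b := 1) (by
      intro x hx
      have hu := u_pos hx
      have hu' := hu.ne'
      have h1 := ((hasDerivAt_id x).sub ((log_deriv hu).div_const 63)).const_mul (64 / 63 : ℝ)
      have e : x / ph x = 64 / 63 * (1 - 63 / (1 + 63 * x) / 63) := by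
        rw [ph_eq]
        exact alg1 x _ rfl hu'
      rw [e]
      exact h1) (by
      apply ContinuousOn.intervalIntegrable
      apply continuousOn_id.div ph_cont.continuousOn
      intro x hx
      exact (ph_pos hx).ne')
  rw [h, log64]
  simp only [mul_zero, add_zero, Real.log_one]
  ring

theorem b0_eq : b0 = 64 / 63 * (6 * Real.log 2) - 64 / 63 * (1 - 6 * Real.log 2 / 63) := by
  unfold b0
  have h := intervalIntegral.integral_eq_sub_of_hasDerivAt
    (f := fun x : ℝ => 64 / 63 * Real.log (1 + 63 * x) -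
      64 / 63 * (x - Real.log (1 + 63 * x) / 63))
    (f' := fun x => (1 - x) / ph x) (a := 0) (b := 1) (by
      intro x hx
      have hu := u_pos hx
      have hu' := hu.ne'
      have h1 := ((hasDerivAt_id x).sub ((log_deriv hu).div_const 63)).const_mul (64 / 63 : ℝ)
      have h2 := (log_deriv hu).const_mul (64 / 63 : ℝ)
      have h3 := h2.sub h1
      have e : (1 - x) / ph x = 64 / 63 * (63 / (1 + 63 * x)) -
          64 / 63 * (1 - 63 / (1 + 63 * x) / 63) := by
        rw [ph_eq]
        exact alg2 x _ rfl hu'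
      rw [e]
      exact h3) (by
      apply ContinuousOn.intervalIntegrable
      apply (continuousOn_const.sub continuousOn_id).div ph_cont.continuousOn
      intro x hx
      exact (ph_pos hx).ne')
  rw [h, log64]
  simp only [mul_zero, add_zero, Real.log_one]
  ring

theorem j0_eq : j0 = 4096 / 250047 * (67 * (6 * Real.log 2) - 126 - 4095 / 64) := by
  unfold j0
  have h := intervalIntegral.integral_eq_sub_of_hasDerivAt
    (f := fun x : ℝ => 4096 / 250047 * (-2 * (1 + 63 * x) + 67 * Real.log (1 + 63 * x) +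
      65 * (1 + 63 * x)⁻¹))
    (f' := fun x => x * (1 - 2 * x) / ph x ^ 2) (a := 0) (b := 1) (by
      intro x hx
      have hu := u_pos hx
      have hu' := hu.ne'
      have h1 := (lin_deriv x).const_mul (-2 : ℝ)
      have h2 := (log_deriv hu).const_mul (67 : ℝ)
      have h3 := ((lin_deriv x).inv hu.ne').const_mul (65 : ℝ)
      have h4 := ((h1.add h2).add h3).const_mul (4096 / 250047 : ℝ)
      have e : x * (1 - 2 * x) / ph x ^ 2 = 4096 / 250047 * (-2 * 63 + 67 * (63 / (1 + 63 * x)) +
          65 * (-63 / (1 + 63 * x) ^ 2)) := by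
        rw [ph_eq]
        exact alg3 x _ rfl hu'
      rw [e]
      exact h4) (by
      apply ContinuousOn.intervalIntegrable
      apply ContinuousOn.div (by fun_prop) ((ph_cont.pow 2).continuousOn)
      intro x hx
      exact (pow_pos (ph_pos hx) 2).ne')
  rw [h, log64]
  simp only [mul_zero, add_zero, Real.log_one]
  norm_num
  ring

theorem gnu : GnuStmt := by
  have h1 := Real.log_two_gt_d9
  have h2 := Real.log_two_lt_d9
  have hA : 0.9488 < A0 := by rw [A0_eq]; linarith
  have hA' : A0 < 0.9489 := by rw [A0_eq]; linarith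
  have hb : 3.276 < b0 := by rw [b0_eq]; linarith
  have hb' : b0 < 3.2762 := by rw [b0_eq]; linarith
  have hj : j0 < 1.4524 := by rw [j0_eq]; linarith
  refine ⟨?_, by linarith, by linarith, by linarith, by linarith⟩
  nlinarith [mul_pos (sub_pos.mpr hA) (sub_pos.mpr hb)]

end Pool.Agent.PVD.L.H52
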