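import Pool.Agent.PVD.StmtsM1

/-! Squad PVD, block M1, rows N_EXI, N_VAR. -/

set_option autoImplicit false
open MeasureTheory

namespace Pool.Agent.PVD.M.H52

open Pool.Agent.PVD.M

theorem or_eq (n : ℕ) : Or n = Set.Ici (0 : Fin n → ℝ) := by
  ext d
  simp only [Or, Set.mem_Ici, Pi.le_def, Pi.zero_apply]
  exact Iff.rfl

theorem or_meas (n : ℕ) : MeasurableSet (Or n) := by
  rw [or_eq]; exact isClosed_Ici.measurableSet

/-- the factor -/
noncomputable def fac (w : ℝ → ℝ) (r : ℝ) (x : ℝ) : ℝ :=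
  (Set.Ici (0 : ℝ)).indicator (fun x => w x * Real.exp (-(r * x))) x

theorem ind_eq {n : ℕ} (w : Fin n → ℝ → ℝ) (th : Fin n → ℝ) :
    (Or n).indicator (fun d => (∏ j, w j (d j)) * Real.exp (-∑ j, th j * d j)) =
      fun d => ∏ j, fac (w j) (th j) (d j) := by
  funext d
  by_cases hd : d ∈ Or n
  · rw [Set.indicator_of_mem hd]
    have hj : ∀ j, fac (w j) (th j) (d j) = w j (d j) * Real.exp (-(th j * d j)) := by
      intro j
      unfold fac
      rw [Set.indicator_of_mem]
      exact hd j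
    simp only [hj]
    rw [Finset.prod_mul_distrib, ← Real.exp_sum, Finset.sum_neg_distrib]
  · rw [Set.indicator_of_notMem hd]
    have : ∃ j, ¬ 0 ≤ d j := by
      by_contra hh
      push Not at hh
      exact hd hh
    obtain ⟨j, hj⟩ := this
    symm
    apply Finset.prod_eq_zero (Finset.mem_univ j)
    unfold fac
    rw [Set.indicator_of_notMem]
    exact hj

theorem prod_or {n : ℕ} (w : Fin n → ℝ → ℝ) (th : Fin n → ℝ)
    (hI : ∀ j, Integrable (fun x : ℝ => fac (w j) (th j) x)) :
    IntegrableOn (fun d : Fin n → ℝ => (∏ j, w j (d j)) * Real.exp (-∑ j, th j * d j)) (Or n) ∧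
    ∫ d in Or n, (∏ j, w j (d j)) * Real.exp (-∑ j, th j * d j) =
      ∏ j, ∫ x : ℝ, fac (w j) (th j) x := by
  constructor
  · rw [← integrable_indicator_iff (or_meas n), ind_eq]
    exact Integrable.fintype_prod (μ := fun _ => (volume : Measure ℝ))
      (f := fun j x => fac (w j) (th j) x) hI
  · rw [← integral_indicator (or_meas n), ind_eq]
    exact integral_fintype_prod_volume_eq_prod (fun j x => fac (w j) (th j) x)

theorem fac_one (h : OneStmt) {r : ℝ} (hr : 0 < r) :
    Integrable (fun x : ℝ => fac (fun _ => 1) r x) ∧ ∫ x : ℝ, fac (fun _ => 1) r x = r⁻¹ := by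
  have := (h r hr).1
  unfold fac
  simp only [one_mul]
  exact this

theorem fac_lin (h : OneStmt) {r : ℝ} (hr : 0 < r) :
    Integrable (fun x : ℝ => fac (fun x => x - r⁻¹) r x) ∧
      ∫ x : ℝ, fac (fun x => x - r⁻¹) r x = 0 := (h r hr).2.1

theorem fac_sq (h : OneStmt) {r : ℝ} (hr : 0 < r) :
    Integrable (fun x : ℝ => fac (fun x => (x - r⁻¹) * (x - r⁻¹)) r x) ∧
      ∫ x : ℝ, fac (fun x => (x - r⁻¹) * (x - r⁻¹)) r x = (r⁻¹) ^ 3 := by
  have := (h r hr).2.2
  unfold fac
  simp only [← pow_two]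
  exact this

theorem exi (h : OneStmt) : ExiStmt := by
  intro n th hth
  have hI : ∀ j, Integrable (fun x : ℝ => fac (fun _ => 1) (th j) x) :=
    fun j => (fac_one h (hth j)).1
  have := prod_or (fun _ _ => 1) th hI
  simp only [Finset.prod_const_one, one_mul] at this
  refine ⟨this.1, ?_⟩
  rw [this.2]
  exact Finset.prod_congr rfl fun j _ => (fac_one h (hth j)).2

/-- weights of the pair `(j, l)` -/
noncomputable def wt {n : ℕ} (th : Fin n → ℝ) (j l i : Fin n) (x : ℝ) : ℝ :=
  (if i = j then x - (th i)⁻¹ else 1) * (if i = l then x - (th i)⁻¹ else 1)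

theorem wt_prod {n : ℕ} (th : Fin n → ℝ) (j l : Fin n) (d : Fin n → ℝ) :
    ∏ i, wt th j l i (d i) = (d j - (th j)⁻¹) * (d l - (th l)⁻¹) := by
  unfold wt
  rw [Finset.prod_mul_distrib, Finset.prod_ite_eq', Finset.prod_ite_eq']
  simp

theorem wt_int (h : OneStmt) {n : ℕ} (th : Fin n → ℝ) (hth : ∀ j, 0 < th j) (j l i : Fin n) :
    Integrable (fun x : ℝ => fac (wt th j l i) (th i) x) ∧
      ∫ x : ℝ, fac (wt th j l i) (th i) x =
        if i = j then (if i = l then ((th i)⁻¹) ^ 3 else 0)
        else (if i = l then 0 else (th i)⁻¹) := by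
  by_cases hj : i = j
  · by_cases hl : i = l
    · have e : wt th j l i = fun x => (x - (th i)⁻¹) * (x - (th i)⁻¹) := by
        funext x
        unfold wt
        rw [if_pos hj, if_pos hl]
      rw [e, if_pos hj, if_pos hl]
      exact fac_sq h (hth i)
    · have e : wt th j l i = fun x => x - (th i)⁻¹ := by
        funext x
        unfold wt
        rw [if_pos hj, if_neg hl, mul_one]
      rw [e, if_pos hj, if_neg hl]
      exact fac_lin h (hth i)
  · by_cases hl : i = l
    · have e : wt th j l i = fun x => x - (th i)⁻¹ := by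
        funext x
        unfold wt
        rw [if_neg hj, if_pos hl, one_mul]
      rw [e, if_neg hj, if_pos hl]
      exact fac_lin h (hth i)
    · have e : wt th j l i = fun _ => 1 := by
        funext x
        unfold wt
        rw [if_neg hj, if_neg hl, mul_one]
      rw [e, if_neg hj, if_neg hl]
      exact fac_one h (hth i)

theorem term_int (h : OneStmt) {n : ℕ} (th : Fin n → ℝ) (hth : ∀ j, 0 < th j) (j l : Fin n) :
    IntegrableOn (fun d : Fin n → ℝ => ((d j - (th j)⁻¹) * (d l - (th l)⁻¹)) *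
      Real.exp (-∑ i, th i * d i)) (Or n) ∧
    ∫ d in Or n, ((d j - (th j)⁻¹) * (d l - (th l)⁻¹)) * Real.exp (-∑ i, th i * d i) =
      if j = l then (1 / th j ^ 2) * ∏ i, (th i)⁻¹ else 0 := by
  have h1 := prod_or (wt th j l) th (fun i => (wt_int h th hth j l i).1)
  simp only [wt_prod] at h1
  refine ⟨h1.1, ?_⟩
  rw [h1.2, Finset.prod_congr rfl fun i _ => (wt_int h th hth j l i).2]
  by_cases hjl : j = l
  · subst hjl
    rw [if_pos rfl, ← Finset.mul_prod_erase _ _ (Finset.mem_univ j),
      ← Finset.mul_prod_erase _ (fun i => (th i)⁻¹) (Finset.mem_univ j), if_pos rfl, if_pos rfl]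
    have e : ∏ x ∈ Finset.univ.erase j, (if x = j then (if x = j then ((th x)⁻¹) ^ 3 else 0)
        else (if x = j then 0 else (th x)⁻¹)) = ∏ x ∈ Finset.univ.erase j, (th x)⁻¹ := by
      apply Finset.prod_congr rfl
      intro x hx
      have : x ≠ j := (Finset.mem_erase.mp hx).1
      rw [if_neg this, if_neg this]
    rw [e]
    have := (hth j).ne'
    field_simp
  · rw [if_neg hjl]
    apply Finset.prod_eq_zero (Finset.mem_univ j)
    rw [if_pos rfl, if_neg hjl]

theorem var (h : OneStmt) : VarStmt := by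
  intro n th a hth
  have hexp : ∀ d : Fin n → ℝ, (∑ j, a j * (d j - (th j)⁻¹)) ^ 2 *
      Real.exp (-∑ j, th j * d j) = ∑ j, ∑ l, (a j * a l) *
        (((d j - (th j)⁻¹) * (d l - (th l)⁻¹)) * Real.exp (-∑ i, th i * d i)) := by
    intro d
    rw [pow_two, Finset.sum_mul_sum, Finset.sum_mul]
    apply Finset.sum_congr rfl
    intro j _
    rw [Finset.sum_mul]
    apply Finset.sum_congr rfl
    intro l _
    ring
  have hint : ∀ j l : Fin n, IntegrableOn (fun d : Fin n → ℝ => (a j * a l) *
        (((d j - (th j)⁻¹) * (d l - (th l)⁻¹)) * Real.exp (-∑ i, th i * d i))) (Or n) :=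
    fun j l => (term_int h th hth j l).1.const_mul _
  have hint2 : ∀ j : Fin n, IntegrableOn (fun d : Fin n → ℝ => ∑ l, (a j * a l) *
        (((d j - (th j)⁻¹) * (d l - (th l)⁻¹)) * Real.exp (-∑ i, th i * d i))) (Or n) :=
    fun j => integrable_finsetSum _ fun l _ => hint j l
  simp only [hexp]
  refine ⟨integrable_finsetSum _ fun j _ => hint2 j, ?_⟩
  rw [integral_finsetSum _ fun j _ => hint2 j, Finset.sum_mul]
  apply Finset.sum_congr rfl
  intro j _
  rw [integral_finsetSum _ fun l _ => hint j l]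
  have : ∀ l, ∫ d in Or n, (a j * a l) *
        (((d j - (th j)⁻¹) * (d l - (th l)⁻¹)) * Real.exp (-∑ i, th i * d i)) =
      (a j * a l) * (if j = l then (1 / th j ^ 2) * ∏ i, (th i)⁻¹ else 0) := by
    intro l
    rw [integral_const_mul, (term_int h th hth j l).2]
  simp only [this, mul_ite, mul_zero]
  rw [Finset.sum_ite_eq]
  simp only [Finset.mem_univ, if_true]
  ring

end Pool.Agent.PVD.M.H52
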